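import Mathlib

/-!
# Finite-index Frattini subgroups: statements

Project FF (helper709), MP_5273fc_al: the intersection of the maximal subgroups of finite index.
-/

set_option autoImplicit false

namespace Pool.Agent.U709.FF

open Matrix

/-- the intersection of the maximal subgroups of finite index (`⊤` if there are none) -/
def PhiF (G : Type) [Group G] : Subgroup G := sInf {M | IsCoatom M ∧ M.FiniteIndex}

/-- `H` contains a nonabelian free group -/
def HasFree (H : Type) [Group H] : Prop :=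
  ∃ f : FreeGroup (Fin 2) →* H, Function.Injective f

/-- all elements of the subgroup `A` commute -/
def Ab {G : Type} [Group G] (A : Subgroup G) : Prop := ∀ a ∈ A, ∀ b ∈ A, a * b = b * a

/-- AB: small linear `q`-groups are abelian -/
def AB : Prop := ∀ (F : Type) [Field F] (n q : ℕ), q.Prime → n < q → (q : F) ≠ 0 →
  ∀ P : Subgroup (GL (Fin n) F), Finite P → IsPGroup q P → Ab P

/-- NIL: commutation in nilpotent groups -/
def NIL : Prop := ∀ (G : Type) [Group G], Group.IsNilpotent G → ∀ (g a : G) (s t : ℕ),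
  s.Coprime t → g ^ s * a = a * g ^ s → g * a ^ t = a ^ t * g → g * a = a * g

/-- CEN: commutators in finite nilpotent groups in which the `q`-elements commute -/
def CEN : Prop := ∀ (N : Type) [Group N] [Finite N], Group.IsNilpotent N → ∀ q : ℕ, q.Prime →
  (∀ u v : N, (∃ k, u ^ q ^ k = 1) → (∃ k, v ^ q ^ k = 1) → u * v = v * u) →
  ∀ x ∈ commutator N, ¬ q ∣ orderOf x

/-- QUO: the image of the finite-index Frattini subgroup in a finite quotient is nilpotent -/
def QUO : Prop := ∀ (G : Type) [Group G] (L : Subgroup G) [L.Normal] [L.FiniteIndex],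
  Group.IsNilpotent ((PhiF G).map (QuotientGroup.mk' L))

/-- MOD: the finite-index Frattini subgroup and virtual representations over finite fields -/
def MOD : Prop := ∀ (G : Type) [Group G] (H : Subgroup G) [H.FiniteIndex] (F : Type) [Field F]
  [Finite F] (n q : ℕ), q.Prime → n < q → H.index < q → (q : F) ≠ 0 →
  ∀ (ρ : H →* GL (Fin n) F) (x : G), x ∈ ⁅PhiF G, PhiF G⁆ → ∀ (m : ℕ) (hm : x ^ m ∈ H),
  ¬ q ∣ orderOf (ρ ⟨x ^ m, hm⟩)

/-- AN: products of the distances of powers to one -/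
def AN : Prop := ∀ (ι : Type) [Fintype ι] (z : ι → ℂ) (M : ℕ), 0 < M → (∀ i, z i ≠ 1) →
  (∃ i, 1 < ‖z i‖) → ∀ c : ℝ, ∃ k : ℕ, c < ∏ i, ‖z i ^ (1 + M * k) - 1‖

/-- NF: algebraic integers whose reductions have smooth order -/
def NF : Prop := ∀ (K : Type) [Field K] [NumberField K] (x : NumberField.RingOfIntegers K),
  x ≠ 0 → ∀ B : ℕ, 0 < B → (∀ I : Ideal (NumberField.RingOfIntegers K), I.IsMaximal →
    ∀ s : ℕ, s.Coprime B → (Ideal.Quotient.mk I x) ^ s = 1 → Ideal.Quotient.mk I x = 1) →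
  ∃ t : ℕ, 0 < t ∧ x ^ t = 1

/-- EIG: eigenvalues of integral matrices whose reductions have smooth order -/
def EIG : Prop := ∀ (n B : ℕ) (y : GL (Fin n) ℤ), (∀ (k : Type) [Field k] [Finite k] (q : ℕ),
    q.Prime → B < q → (q : k) ≠ 0 →
    ¬ q ∣ orderOf (GeneralLinearGroup.map (Int.castRingHom k) y)) →
  ∀ z : ℂ, ((y : Matrix (Fin n) (Fin n) ℤ).charpoly.map (Int.castRingHom ℂ)).IsRoot z →
  ∃ t : ℕ, 0 < t ∧ z ^ t = 1

/-- VA: powers in finitely generated virtually abelian groups -/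
def VA : Prop := ∀ (N : Type) [Group N], Group.FG N → (∃ A : Subgroup N, A.FiniteIndex ∧ Ab A) →
  ∃ e : ℕ, 0 < e ∧ (Subgroup.closure {x : N | ∃ y, x = y ^ e}).FiniteIndex ∧
    Ab (Subgroup.closure {x : N | ∃ y, x = y ^ e}) ∧
    (∀ p : ℕ, 0 < p → ∃ D : Subgroup N, D.FiniteIndex ∧
      ∀ x, x ∈ D ↔ ∃ a ∈ Subgroup.closure {x : N | ∃ y, x = y ^ e}, x = a ^ p) ∧
    ∀ s : ℕ, 0 < s → ∀ b ∈ Subgroup.closure {x : N | ∃ y, x = y ^ e},
      (∀ p : ℕ, p.Prime → ¬ p ∣ s → ∃ a ∈ Subgroup.closure {x : N | ∃ y, x = y ^ e}, b = a ^ p) →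
      b = 1

/-- FR: commutator subgroups contain free groups -/
def FR : Prop := ∀ (H : Type) [Group H], HasFree H → HasFree (commutator H)

/-- NV: virtually abelian finite-index Frattini subgroups -/
def NV : Prop := ∀ (G : Type) [Group G], Group.FG (PhiF G) →
  (∃ A : Subgroup (PhiF G), A.FiniteIndex ∧ Ab A) →
  (∀ A : Subgroup G, Ab A → ∀ g ∉ A, ∃ L : Subgroup G, L.FiniteIndex ∧ A ≤ L ∧ g ∉ L) →
  Group.IsNilpotent (PhiF G)

end Pool.Agent.U709.FF
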