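import Pool.Agent.U709.FF.Asm

/-!
# Mapping class groups
-/

set_option autoImplicit false

namespace Pool.Agent.U709.FF

open scoped unitInterval

variable {S : Type} [TopologicalSpace S]

/-- the homeomorphism `f` is isotopic to the identity -/
def IsoId (f : S ≃ₜ S) : Prop :=
  ∃ F : I → (S ≃ₜ S), Continuous (fun p : I × S => F p.1 p.2) ∧
    Continuous (fun p : I × S => (F p.1).symm p.2) ∧ F 0 = f ∧ F 1 = 1

variable (S)

/-- the homeomorphisms which are isotopic to the identity -/
def homeo0 : Subgroup (S ≃ₜ S) where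
  carrier := {f | IsoId f}
  one_mem' := ⟨fun _ => 1, continuous_snd, continuous_snd, rfl, rfl⟩
  mul_mem' := by
    rintro f g ⟨F, h1, h2, rfl, h4⟩ ⟨F', h1', h2', rfl, h4'⟩
    refine ⟨fun t => F t * F' t, ?_, ?_, rfl, ?_⟩
    · exact h1.comp (continuous_fst.prodMk h1')
    · exact h2'.comp (continuous_fst.prodMk h2)
    · show F 1 * F' 1 = 1
      rw [h4, h4', one_mul]
  inv_mem' := by
    rintro f ⟨F, h1, h2, rfl, h4⟩
    refine ⟨fun t => (F t)⁻¹, h2, h1, rfl, ?_⟩
    show (F 1)⁻¹ = 1
    rw [h4, inv_one]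

instance homeo0_normal : (homeo0 S).Normal := by
  refine ⟨?_⟩
  rintro f ⟨F, h1, h2, rfl, h4⟩ g
  refine ⟨fun t => g * F t * g⁻¹, ?_, ?_, rfl, ?_⟩
  · exact g.continuous.comp (h1.comp (continuous_fst.prodMk (g.symm.continuous.comp continuous_snd)))
  · exact g.continuous.comp (h2.comp (continuous_fst.prodMk (g.symm.continuous.comp continuous_snd)))
  · show g * F 1 * g⁻¹ = 1
    rw [h4, mul_one, mul_inv_cancel]

/-- the (extended) mapping class group of `S`: the group of the isotopy classes of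
homeomorphisms of `S` -/
abbrev MapClass : Type := (S ≃ₜ S) ⧸ homeo0 S

end Pool.Agent.U709.FF
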