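import Pool.Agent.U709.FF.MOD
import Pool.Agent.U709.FF.Surf
import Pool.Agent.U928.FF.AB
import Pool.Agent.U913.FF.CEN
import Pool.Agent.U59.FF.AN
import Pool.Agent.U256.FF.NF
import Pool.Agent.U818.FF.EIG
import Pool.Agent.U111.FF.VA
import Pool.Agent.U741.FF.NV
import Pool.Agent.U103.FF.FR

/-!
# Finite-index Frattini subgroups: the theorems
-/

set_option autoImplicit false

namespace Pool.Agent.U709.FF

theorem hNIL : NIL := Pool.Agent.U913.FF.t_NIL
theorem hMOD : MOD := t_MOD Pool.Agent.U928.FF.AB.t_AB (Pool.Agent.U913.FF.t_CEN hNIL)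
theorem hEIG : EIG := Pool.Agent.U818.FF.t_EIG (Pool.Agent.U256.FF.NF.t_NF
  Pool.Agent.U59.FF.AN.t_AN)
theorem hNV : NV := Pool.Agent.U741.FF.t_NV hNIL Pool.Agent.U111.FF.VA.t_VA t_QUO

theorem one' {G : Type} [Group G] (x : G) (hx : x ∈ ⁅PhiF G, PhiF G⁆) : ¬ VirtEig G x :=
  one hMOD hEIG x hx

theorem main' {Γ : Type} [Group Γ] (h : MCG Γ) (G : Subgroup Γ) : PhiNil G :=
  main hMOD hEIG Pool.Agent.U103.FF.t_FR hNV h G

end Pool.Agent.U709.FF
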