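import Pool.Agent.U709.FF.Stm

/-!
# Finite-index Frattini subgroups: assembly
-/

set_option autoImplicit false

namespace Pool.Agent.U709.FF

open Matrix

/-- the integral matrix `y` has a complex eigenvalue which is not a root of unity -/
def OffRoots {n : ℕ} (y : GL (Fin n) ℤ) : Prop :=
  ∃ z : ℂ, ((y : Matrix (Fin n) (Fin n) ℤ).charpoly.map (Int.castRingHom ℂ)).IsRoot z ∧
    ∀ t : ℕ, 0 < t → z ^ t ≠ 1

/-- there is a representation over the integers of a subgroup of finite index such that a power of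
`x` has an eigenvalue which is not a root of unity -/
def VirtEig (Γ : Type) [Group Γ] (x : Γ) : Prop :=
  ∃ (H : Subgroup Γ) (n : ℕ) (ρ : H →* GL (Fin n) ℤ) (m : ℕ) (hm : x ^ m ∈ H),
    H.FiniteIndex ∧ OffRoots (ρ ⟨x ^ m, hm⟩)

/-- **commutators in the finite-index Frattini subgroup and virtual integral representations** -/
theorem one (hMOD : MOD) (hEIG : EIG) {G : Type} [Group G] (x : G)
    (hx : x ∈ ⁅PhiF G, PhiF G⁆) : ¬ VirtEig G x := by
  rintro ⟨H, n, ρ, m, hm, hH, z, hz, hz1⟩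
  obtain ⟨t, ht, h1⟩ := hEIG n (max n H.index) (ρ ⟨x ^ m, hm⟩) (by
    intro k _ _ q hq hB hqk
    have h2 := hMOD G H k n q hq ((le_max_left _ _).trans_lt hB) ((le_max_right _ _).trans_lt hB)
      hqk ((GeneralLinearGroup.map (Int.castRingHom k)).comp ρ) x hx m hm
    exact h2) z hz
  exact hz1 t ht h1

/-- properties of mapping class groups -/
structure MCG (Γ : Type) [Group Γ] : Prop where
  tits : ∀ K : Subgroup Γ, ¬ HasFree K → Group.FG K ∧ ∃ A : Subgroup K, A.FiniteIndex ∧ Ab A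
  sep : ∀ A : Subgroup Γ, Ab A → ∀ g ∉ A, ∃ L : Subgroup Γ, L.FiniteIndex ∧ A ≤ L ∧ g ∉ L
  eig : ∀ K : Subgroup Γ, HasFree K → ∃ x ∈ K, VirtEig Γ x

theorem HasFree.of_inj {H K : Type} [Group H] [Group K] (h : HasFree H) (f : H →* K)
    (hf : Function.Injective f) : HasFree K := by
  obtain ⟨j, hj⟩ := h
  exact ⟨f.comp j, hf.comp hj⟩

theorem VirtEig.sub {Γ : Type} [Group Γ] {G : Subgroup Γ} {x : G} (h : VirtEig Γ (x : Γ)) :
    VirtEig G x := by
  obtain ⟨H, n, ρ, m, hm, hH, hz⟩ := h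
  have hm' : x ^ m ∈ H.subgroupOf G := by
    rw [Subgroup.mem_subgroupOf]
    exact hm
  exact ⟨H.subgroupOf G, n, ρ.comp ((G.subtype.comp (H.subgroupOf G).subtype).codRestrict H
    fun y => y.2), m, hm', inferInstance, hz⟩

/-- the finite-index Frattini subgroup is nilpotent, finitely generated and virtually abelian -/
def PhiNil (G : Type) [Group G] : Prop :=
  Group.IsNilpotent (PhiF G) ∧ Group.FG (PhiF G) ∧ ∃ A : Subgroup (PhiF G), A.FiniteIndex ∧ Ab A

/-- **the main theorem** -/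
theorem main (hMOD : MOD) (hEIG : EIG) (hFR : FR) (hNV : NV) {Γ : Type} [Group Γ] (h : MCG Γ)
    (G : Subgroup Γ) : PhiNil G := by
  have h1 : ¬ HasFree (PhiF G) := by
    intro hF
    have h2 := hFR _ hF
    let f : commutator (PhiF G) →* Γ := (G.subtype.comp (PhiF G).subtype).comp
      (commutator (PhiF G)).subtype
    have hf : Function.Injective f := (G.subtype_injective.comp
      (PhiF G).subtype_injective).comp (commutator (PhiF G)).subtype_injective
    obtain ⟨x, ⟨⟨y, hy⟩, rfl⟩, hx⟩ := h.eig f.range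
      (h2.of_inj f.rangeRestrict ((MonoidHom.rangeRestrict_injective_iff).2 hf))
    refine one hMOD hEIG (y : G) ?_ hx.sub
    have h3 : (commutator (PhiF G)).map (PhiF G).subtype = ⁅PhiF G, PhiF G⁆ := by
      rw [commutator_def, Subgroup.map_commutator, ← MonoidHom.range_eq_map,
        Subgroup.range_subtype]
    rw [← h3]
    exact ⟨y, hy, rfl⟩
  let e : PhiF G ≃* (PhiF G).map G.subtype :=
    (PhiF G).equivMapOfInjective _ G.subtype_injective
  obtain ⟨h2, A, hA, hA2⟩ := h.tits ((PhiF G).map G.subtype) (fun hF => h1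
    (hF.of_inj e.symm.toMonoidHom e.symm.injective))
  have h3 : Group.FG (PhiF G) :=
    Group.fg_of_surjective (f := e.symm.toMonoidHom) e.symm.surjective
  have h4 : ∃ A : Subgroup (PhiF G), A.FiniteIndex ∧ Ab A := by
    refine ⟨A.comap e.toMonoidHom, ⟨?_⟩, ?_⟩
    · rw [Subgroup.index_comap_of_surjective (f := e.toMonoidHom) _ e.surjective]
      exact hA.index_ne_zero
    intro a ha b hb
    apply e.injective
    rw [map_mul, map_mul]
    exact hA2 _ ha _ hb
  refine ⟨hNV G h3 h4 ?_, h3, h4⟩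
  intro B hB g hg
  obtain ⟨L, hL, h5, h6⟩ := h.sep (B.map G.subtype) (by
    rintro _ ⟨a, ha, rfl⟩ _ ⟨b, hb, rfl⟩
    exact congrArg Subtype.val (hB a ha b hb)) (g : Γ) (by
      rintro ⟨b, hb, h7⟩
      have h7 : b = g := Subtype.ext h7
      rw [h7] at hb
      exact hg hb)
  refine ⟨L.subgroupOf G, inferInstance, fun b hb => ?_, fun h7 => h6 ?_⟩
  · exact Subgroup.mem_subgroupOf.2 (h5 ⟨b, hb, rfl⟩)
  · exact Subgroup.mem_subgroupOf.1 h7

end Pool.Agent.U709.FF
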