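import Pool.Agent.U709.FF.QUO

/-!
# Finite-index Frattini subgroups: virtual representations over finite fields
-/

set_option autoImplicit false

namespace Pool.Agent.U709.FF

open Matrix Subgroup

/-- coprime powers -/
theorem mem_of_pow_mem {G : Type} [Group G] {H : Subgroup G} {g : G} {a b : ℕ}
    (hab : a.Coprime b) (ha : g ^ a ∈ H) (hb : g ^ b ∈ H) : g ∈ H := by
  have h1 : g = (g ^ a) ^ (a.gcdA b) * (g ^ b) ^ (a.gcdB b) := by
    rw [← zpow_natCast, ← zpow_natCast, ← _root_.zpow_mul, ← _root_.zpow_mul, ← _root_.zpow_add]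
    have h2 := Nat.gcd_eq_gcd_ab a b
    rw [hab.gcd_eq_one] at h2
    rw [← h2]
    simp
  rw [h1]
  exact H.mul_mem (H.zpow_mem ha _) (H.zpow_mem hb _)

theorem t_MOD (hAB : AB) (hCEN : CEN) : MOD := by
  intro G _ H _ F _ _ n q hq hn hHq hqF ρ x hx m hm
  have : Fact q.Prime := ⟨hq⟩
  have hfinGL : Finite (GL (Fin n) F) := by
    have : Finite (Matrix (Fin n) (Fin n) F) := inferInstance
    exact Finite.of_injective (fun g : GL (Fin n) F => (g : Matrix (Fin n) (Fin n) F))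
      (fun _ _ h => Units.ext h)
  -- the kernel
  obtain ⟨κ, hκ⟩ : ∃ κ : Subgroup G, κ = ρ.ker.map H.subtype := ⟨_, rfl⟩
  have hκm : ∀ g : G, g ∈ κ ↔ ∃ hg : g ∈ H, ρ ⟨g, hg⟩ = 1 := by
    intro g
    rw [hκ]
    constructor
    · rintro ⟨⟨y, hy⟩, h1, rfl⟩
      exact ⟨hy, h1⟩
    · rintro ⟨hg, h1⟩
      exact ⟨⟨g, hg⟩, h1, rfl⟩
  have hκf : κ.FiniteIndex := by
    refine ⟨?_⟩
    rw [hκ, index_map_subtype]
    refine mul_ne_zero ?_ FiniteIndex.index_ne_zero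
    rw [index_ker]
    exact Nat.card_pos.ne'
  have hLf : κ.normalCore.FiniteIndex := inferInstance
  have hfinQ : Finite (G ⧸ κ.normalCore) := inferInstance
  have hnil := t_QUO G κ.normalCore
  -- the image of the Frattini subgroup
  obtain ⟨N, hN⟩ : ∃ N : Subgroup (G ⧸ κ.normalCore),
    N = (PhiF G).map (QuotientGroup.mk' κ.normalCore) := ⟨_, rfl⟩
  rw [← hN] at hnil
  have hNn : N.Normal := by
    rw [hN]
    exact (phiF_normal G).map _ (QuotientGroup.mk'_surjective _)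
  -- the Sylow subgroup
  let P : Sylow q N := default
  have hPn : (P : Subgroup N).Normal := inferInstance
  have hPc : (P : Subgroup N).Characteristic := P.characteristic_of_normal hPn
  have hP1 : ((P : Subgroup N).map N.subtype).Normal := inferInstance
  obtain ⟨P1, hP1d⟩ : ∃ P1 : Subgroup (G ⧸ κ.normalCore), P1 = (P : Subgroup N).map N.subtype :=
    ⟨_, rfl⟩
  rw [← hP1d] at hP1
  have hP1q : IsPGroup q P1 := by
    rw [hP1d]
    exact P.isPGroup'.map _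
  have hP2 : (P1.comap (QuotientGroup.mk' κ.normalCore)).Normal := inferInstance
  obtain ⟨P2, hP2d⟩ : ∃ P2 : Subgroup G, P2 = P1.comap (QuotientGroup.mk' κ.normalCore) :=
    ⟨_, rfl⟩
  rw [← hP2d] at hP2
  have hP2q : ∀ g ∈ P2, ∃ k : ℕ, g ^ q ^ k ∈ κ.normalCore := by
    intro g hg
    rw [hP2d] at hg
    obtain ⟨k, hk⟩ := hP1q ⟨_, hg⟩
    refine ⟨k, ?_⟩
    have h1 : (QuotientGroup.mk' κ.normalCore g) ^ q ^ k = 1 := congrArg Subtype.val hk
    rw [← map_pow] at h1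
    exact (QuotientGroup.eq_one_iff _).1 h1
  have hκH : κ ≤ H := fun g hg => ((hκm g).1 hg).1
  have hP2H : P2 ≤ H := by
    intro g hg
    obtain ⟨k, hk⟩ := hP2q g hg
    obtain ⟨j, hj, hjle, hj1⟩ := exists_pow_mem_of_index_ne_zero
      (FiniteIndex.index_ne_zero (H := H)) g
    refine mem_of_pow_mem (a := j) (b := q ^ k) ?_ hj1 (hκH (normalCore_le κ hk))
    refine Nat.Coprime.pow_right _ ?_
    rw [Nat.coprime_comm, hq.coprime_iff_not_dvd]
    intro h1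
    exact absurd (Nat.le_of_dvd hj h1) (by omega)
  have hAb : Ab ((P2.subgroupOf H).map ρ) := by
    refine hAB F n q hq hn hqF _ inferInstance ?_
    rintro ⟨_, ⟨g, hg, rfl⟩⟩
    obtain ⟨k, hk⟩ := hP2q g (mem_subgroupOf.1 hg)
    refine ⟨k, Subtype.ext ?_⟩
    show (ρ g) ^ q ^ k = 1
    rw [← map_pow]
    obtain ⟨h1, h2⟩ := (hκm _).1 (normalCore_le κ hk)
    exact h2
  have hcomm : ∀ u ∈ P2, ∀ v ∈ P2, u * v * u⁻¹ * v⁻¹ ∈ κ := by
    intro u hu v hv
    rw [hκm]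
    refine ⟨H.mul_mem (H.mul_mem (H.mul_mem (hP2H hu) (hP2H hv)) (H.inv_mem (hP2H hu)))
      (H.inv_mem (hP2H hv)), ?_⟩
    have h1 := hAb (ρ ⟨u, hP2H hu⟩) ⟨_, mem_subgroupOf.2 hu, rfl⟩ (ρ ⟨v, hP2H hv⟩)
      ⟨_, mem_subgroupOf.2 hv, rfl⟩
    have h2 : (⟨u * v * u⁻¹ * v⁻¹, H.mul_mem (H.mul_mem (H.mul_mem (hP2H hu) (hP2H hv))
      (H.inv_mem (hP2H hu))) (H.inv_mem (hP2H hv))⟩ : H) =
      ⟨u, hP2H hu⟩ * ⟨v, hP2H hv⟩ * ⟨u, hP2H hu⟩⁻¹ * ⟨v, hP2H hv⟩⁻¹ := rfl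
    rw [h2, map_mul, map_mul, map_mul, h1, map_inv, map_inv]
    group
  have hcore : ∀ u ∈ P2, ∀ v ∈ P2, u * v * u⁻¹ * v⁻¹ ∈ κ.normalCore := by
    intro u hu v hv g
    have h1 := hcomm (g * u * g⁻¹) (hP2.conj_mem u hu g) (g * v * g⁻¹) (hP2.conj_mem v hv g)
    have h2 : g * u * g⁻¹ * (g * v * g⁻¹) * (g * u * g⁻¹)⁻¹ * (g * v * g⁻¹)⁻¹ =
      g * (u * v * u⁻¹ * v⁻¹) * g⁻¹ := by group
    rwa [h2] at h1
  have hP1c : Ab P1 := by
    intro a ha b hb
    obtain ⟨u, rfl⟩ := QuotientGroup.mk'_surjective κ.normalCore a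
    obtain ⟨v, rfl⟩ := QuotientGroup.mk'_surjective κ.normalCore b
    have hu : u ∈ P2 := by rw [hP2d]; exact ha
    have hv : v ∈ P2 := by rw [hP2d]; exact hb
    have h1 := (QuotientGroup.eq_one_iff _).2 (hcore u hu v hv)
    have h2 : (QuotientGroup.mk' κ.normalCore u) * (QuotientGroup.mk' κ.normalCore v) *
      (QuotientGroup.mk' κ.normalCore u)⁻¹ * (QuotientGroup.mk' κ.normalCore v)⁻¹ = 1 := h1
    rwa [mul_inv_eq_one, mul_inv_eq_iff_eq_mul] at h2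
  have hmemP : ∀ u : N, (∃ k, u ^ q ^ k = 1) → u ∈ (P : Subgroup N) := by
    rintro u ⟨k, hk⟩
    have h1 : IsPGroup q (zpowers u) := by
      rintro ⟨_, ⟨j, rfl⟩⟩
      refine ⟨k, Subtype.ext ?_⟩
      show (u ^ j) ^ q ^ k = 1
      rw [← zpow_natCast, ← _root_.zpow_mul, mul_comm, _root_.zpow_mul, zpow_natCast, hk, _root_.one_zpow]
    obtain ⟨P', hP'⟩ := h1.exists_le_sylow
    have := P.unique_of_normal hPn
    have h2 : P' = P := Subsingleton.elim _ _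
    rw [h2] at hP'
    exact hP' (mem_zpowers u)
  have hq1 := hCEN N hnil q hq (by
    intro u v hu hv
    apply Subtype.ext
    refine hP1c (u : G ⧸ κ.normalCore) ?_ (v : G ⧸ κ.normalCore) ?_
    · rw [hP1d]
      exact ⟨u, hmemP u hu, rfl⟩
    · rw [hP1d]
      exact ⟨v, hmemP v hv, rfl⟩)
  have hxN : QuotientGroup.mk' κ.normalCore x ∈ ⁅N, N⁆ := by
    rw [hN, ← map_commutator]
    exact ⟨x, hx, rfl⟩
  have hcN : (commutator N).map N.subtype = ⁅N, N⁆ := by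
    rw [_root_.commutator_def, map_commutator, ← MonoidHom.range_eq_map, range_subtype]
  rw [← hcN] at hxN
  obtain ⟨y, hy, hyx⟩ := hxN
  have h3 := hq1 y hy
  intro h4
  apply h3
  refine h4.trans (orderOf_dvd_of_pow_eq_one ?_)
  have h5 : x ^ orderOf y ∈ κ.normalCore := by
    refine (QuotientGroup.eq_one_iff _).1 ?_
    have h6 : (QuotientGroup.mk' κ.normalCore x) ^ orderOf y = 1 := by
      rw [← hyx, ← map_pow, pow_orderOf_eq_one, map_one]
    exact h6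
  have h6 := κ.pow_mem (normalCore_le κ h5) m
  rw [← pow_mul, mul_comm, pow_mul] at h6
  obtain ⟨h7, h8⟩ := (hκm _).1 h6
  rw [← map_pow]
  exact h8

end Pool.Agent.U709.FF
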