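import Pool.Agent.U709.FF.Stm

/-!
# Finite-index Frattini subgroups: finite quotients, representations over finite fields
-/

set_option autoImplicit false

namespace Pool.Agent.U709.FF

open Matrix Subgroup

theorem nil_of_le {Q : Type} [Group Q] {A B : Subgroup Q} (h : A ≤ B) (hB : Group.IsNilpotent B) :
    Group.IsNilpotent A :=
  Group.nilpotent_of_mulEquiv (subgroupOfEquivOfLe h)

theorem phiF_map_le {G : Type} [Group G] (L : Subgroup G) [L.Normal] [L.FiniteIndex] :
    (PhiF G).map (QuotientGroup.mk' L) ≤ frattini (G ⧸ L) := by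
  rintro _ ⟨x, hx, rfl⟩
  unfold frattini Order.radical
  simp only [Subgroup.mem_iInf]
  intro M hM
  have hM : IsCoatom M := hM
  have hfin : Finite (G ⧸ L) := inferInstance
  have h1 : (M.comap (QuotientGroup.mk' L)).FiniteIndex := by
    refine ⟨?_⟩
    rw [index_comap_of_surjective _ (QuotientGroup.mk'_surjective L)]
    exact index_ne_zero_of_finite
  have h2 : M.comap (QuotientGroup.mk' L) ∈ {M : Subgroup G | IsCoatom M ∧ M.FiniteIndex} :=
    ⟨isCoatom_comap_of_surjective (QuotientGroup.mk'_surjective L) hM, h1⟩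
  exact (sInf_le h2 : PhiF G ≤ _) hx

theorem t_QUO : QUO := fun G _ L _ _ => nil_of_le (phiF_map_le L) frattini_nilpotent

instance phiF_normal (G : Type) [Group G] : (PhiF G).Normal := by
  refine ⟨fun x hx g => ?_⟩
  rw [PhiF, mem_sInf] at hx ⊢
  rintro M ⟨hM, hfin⟩
  have h1 : M.comap (MulAut.conj g).toMonoidHom ∈ {M : Subgroup G | IsCoatom M ∧ M.FiniteIndex} := by
    refine ⟨isCoatom_comap_of_surjective (MulAut.conj g).surjective hM, ⟨?_⟩⟩
    rw [index_comap_of_surjective (f := (MulAut.conj g).toMonoidHom) _ (MulAut.conj g).surjective]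
    exact hfin.index_ne_zero
  exact hx _ h1

end Pool.Agent.U709.FF
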